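import Pool.Agent.Y793.Dy.Stm

/-!
Project DY (MP_bed052_nt): DY-FINE, representations `p m + q n` and refinement of gaps.
-/

set_option autoImplicit false

namespace Pool.Agent.Y401.Dy

open Finset
open Pool.Agent.Helper352.Bed Pool.Agent.Y793.Dy

/-- representation of integers by `p m + q n` with bounded `m, n` -/
theorem rep {p q B N : ℕ} (hpq : p.Coprime q) (hp : 0 < p) (hlt : p < q) (hB : q ≤ B)
    (h1 : p * q ≤ N) (h2 : N + p * q ≤ (p + q) * B) :
    ∃ m n : ℕ, m ≤ B ∧ n ≤ B ∧ p * m + q * n = N := by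
  have hbz : (1 : ℤ) = p * Nat.gcdA p q + q * Nat.gcdB p q := by
    rw [← Nat.gcd_eq_gcd_ab p q, hpq]
    rfl
  set a := Nat.gcdA p q
  set b := Nat.gcdB p q
  have hq0 : (0 : ℤ) < q := by exact_mod_cast (by omega : 0 < q)
  have hp0 : (0 : ℤ) < p := by exact_mod_cast hp
  obtain ⟨U, hU⟩ : ∃ U : ℕ, U = min B (N / p) := ⟨_, rfl⟩
  have hUB : U ≤ B := by rw [hU]; exact min_le_left _ _
  have hUN : p * U ≤ N := by
    have h3 : U ≤ N / p := by rw [hU]; exact min_le_right _ _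
    calc p * U ≤ p * (N / p) := Nat.mul_le_mul_left _ h3
      _ ≤ N := Nat.mul_div_le N p
  have hUq : q ≤ U := by
    rw [hU]
    refine le_min hB ?_
    rw [Nat.le_div_iff_mul_le hp]
    rw [mul_comm]
    exact h1
  set r : ℤ := ((U : ℤ) - N * a) % q with hr
  set k : ℤ := ((U : ℤ) - N * a) / q with hk
  have hr0 : 0 ≤ r := Int.emod_nonneg _ hq0.ne'
  have hr1 : r < q := Int.emod_lt_of_pos _ hq0
  have hrk : q * k + r = (U : ℤ) - N * a := Int.mul_ediv_add_emod _ _
  have hUq' : (q : ℤ) ≤ U := by exact_mod_cast hUq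
  have hUN' : (p : ℤ) * U ≤ N := by exact_mod_cast hUN
  have hUB' : (U : ℤ) ≤ B := by exact_mod_cast hUB
  have e1 : (N : ℤ) - p * (U - r) = q * (N * b - p * k) := by
    linear_combination (N : ℤ) * hbz + p * hrk
  have ht0 : 0 ≤ (N : ℤ) * b - p * k := by
    by_contra hc
    push Not at hc
    have h3 : (q : ℤ) * (N * b - p * k) < 0 := mul_neg_of_pos_of_neg hq0 hc
    rw [← e1] at h3
    nlinarith
  have hm0 : 0 ≤ (U : ℤ) - r := by linarith
  obtain ⟨m, hm⟩ := Int.eq_ofNat_of_zero_le hm0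
  obtain ⟨n, hn⟩ := Int.eq_ofNat_of_zero_le ht0
  rw [hm, hn] at e1
  refine ⟨m, n, ?_, ?_, ?_⟩
  · have : (m : ℤ) ≤ B := by rw [← hm]; linarith
    exact_mod_cast this
  · have hmU : (U : ℤ) - q < m := by rw [← hm]; linarith
    rcases le_total B (N / p) with hc | hc
    · have hUe : (U : ℤ) = B := by rw [hU, min_eq_left hc]
      have h2' : (N : ℤ) + p * q ≤ (p + q) * B := by exact_mod_cast h2
      have h3 : (q : ℤ) * n < q * B := by
        rw [← e1]
        rw [hUe] at hmU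
        nlinarith
      have h4 : (n : ℤ) < B := lt_of_mul_lt_mul_left h3 hq0.le
      have h5 : n < B := by exact_mod_cast h4
      exact h5.le
    · have hUe : U = N / p := by rw [hU, min_eq_right hc]
      have h3 : N < p * (U + 1) := by
        rw [hUe]
        exact Nat.lt_mul_div_succ N hp
      have h3' : (N : ℤ) < p * (U + 1) := by exact_mod_cast h3
      have hlt' : (p : ℤ) < q := by exact_mod_cast hlt
      have h4 : (q : ℤ) * n < q * (p + 1) := by
        rw [← e1]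
        nlinarith
      have h5 : (n : ℤ) < p + 1 := lt_of_mul_lt_mul_left h4 hq0.le
      have h6 : n < p + 1 := by exact_mod_cast h5
      omega
  · have : (p : ℤ) * m + q * n = N := by linarith
    exact_mod_cast this

/-- DY-FINE -/
theorem t_FINE : S_FINE := by
  intro p q R L D lo θ w P hpq hp hlt hθ hR hT hP hw hcov
  set T : ℝ := θ * 2 ^ L with hTdef
  have hT0 : 0 < T := by linarith
  have hθ0 : 0 < θ := by linarith
  have hpR : (2 : ℝ) ≤ p := by exact_mod_cast hp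
  have hqR : (p : ℝ) < q := by exact_mod_cast hlt
  have hpq0 : 0 ≤ (p : ℝ) * q := by positivity
  obtain ⟨B, hB⟩ : ∃ B : ℕ, B + 1 = 2 ^ R := ⟨2 ^ R - 1, by have := Nat.one_le_two_pow (n := R); omega⟩
  have hBq : q ≤ B := by
    rw [← hB] at hR
    nlinarith
  have hBR : (2 : ℝ) ^ R = B + 1 := by exact_mod_cast hB.symm
  have h2pq : p * q + p * q ≤ (p + q) * B := by nlinarith
  obtain ⟨N1, hN1⟩ : ∃ N1 : ℕ, N1 + p * q = (p + q) * B := ⟨(p + q) * B - p * q, by omega⟩
  have hN1R : (N1 : ℝ) = (p + q) * B - p * q := by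
    have : (N1 : ℝ) + p * q = (p + q) * B := by exact_mod_cast hN1
    linarith
  refine ⟨lo + ⌈T * (p * q)⌉₊, ?_⟩
  intro y hy1 hy2
  have hc1 : T * (p * q) ≤ ⌈T * (p * q)⌉₊ := Nat.le_ceil _
  have hc2 : (⌈T * (p * q)⌉₊ : ℝ) < T * (p * q) + 1 := Nat.ceil_lt_add_one (by positivity)
  have hy1' : (lo : ℝ) + ⌈T * (p * q)⌉₊ ≤ y := by exact_mod_cast hy1
  push_cast at hy2
  have hyl : T * (p * q) ≤ (y : ℝ) - lo := by linarith
  obtain ⟨F, hF⟩ : ∃ F : ℕ, F = ⌊((y : ℝ) - lo) / T⌋₊ := ⟨_, rfl⟩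
  have hyl0 : 0 ≤ ((y : ℝ) - lo) / T := div_nonneg (by nlinarith) hT0.le
  have hF1 : (F : ℝ) * T ≤ (y : ℝ) - lo := by
    have := Nat.floor_le hyl0
    rw [← hF, le_div_iff₀ hT0] at this
    exact this
  have hF2 : (y : ℝ) - lo < (F + 1) * T := by
    have := Nat.lt_floor_add_one (((y : ℝ) - lo) / T)
    rw [← hF, div_lt_iff₀ hT0] at this
    exact this
  have hF3 : p * q ≤ F := by
    rw [hF]
    apply Nat.le_floor
    rw [le_div_iff₀ hT0]
    push_cast
    linarith
  obtain ⟨N, hN⟩ : ∃ N : ℕ, N = min N1 F := ⟨_, rfl⟩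
  have hNF : N ≤ F := by rw [hN]; exact min_le_right _ _
  have hNN1 : N ≤ N1 := by rw [hN]; exact min_le_left _ _
  obtain ⟨m, n, hm, hn, hmn⟩ := rep (N := N) hpq (by omega) hlt hBq
    (by rw [hN]; exact le_min (by omega) hF3) (by omega)
  obtain ⟨s2, hs2, hs2a, hs2b⟩ := bottom (α := p * θ) (β := q * θ) (by positivity)
    (by have : (0 : ℝ) < q := by linarith
        positivity) L R m n (by omega) (by omega)
  have hTN : (2 : ℝ) ^ L * (m * (p * θ) + n * (q * θ)) = T * N := by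
    have : (p : ℝ) * m + q * n = N := by exact_mod_cast hmn
    rw [← this, hTdef]
    ring
  rw [hTN] at hs2a hs2b
  have hNF' : (N : ℝ) ≤ F := by exact_mod_cast hNF
  have hTNy : T * N ≤ (y : ℝ) - lo := by nlinarith
  have hlos : lo + s2 ≤ y := by
    have : (lo : ℝ) + s2 ≤ y := by linarith
    exact_mod_cast this
  obtain ⟨y', hy'⟩ : ∃ y' : ℕ, y' + s2 = y := ⟨y - s2, by omega⟩
  have hy'R : (y' : ℝ) = y - s2 := by
    have : (y' : ℝ) + s2 = y := by exact_mod_cast hy'
    linarith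
  have hyw : (y' : ℝ) ≤ lo + w := by
    rw [hy'R]
    rcases le_total N1 F with hc | hc
    · have hNe : (N : ℝ) = N1 := by rw [hN, min_eq_left hc]
      rw [hNe, hN1R] at hs2b
      have h5 : θ * 2 ^ (L + R) = T * (B + 1) := by
        rw [pow_add, hTdef, hBR]
        ring
      rw [h5] at hy2
      have hR' : 2 * ((p : ℝ) + q + 2 * p * q) ≤ B + 1 := by
        rw [← hBR]
        exact_mod_cast hR
      have h6 : T * (2 * ((p : ℝ) + q + 2 * p * q)) ≤ T * (B + 1) :=
        mul_le_mul_of_nonneg_left hR' hT0.le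
      nlinarith
    · have hNe : (N : ℝ) = F := by rw [hN, min_eq_right hc]
      rw [hNe] at hs2b
      nlinarith
  obtain ⟨s1, hs1, hs1a, hs1b⟩ := hcov y' (by omega) hyw
  refine ⟨s1 + s2, SS.add (fun i hi hi2 => ?_) hs1 hs2, by omega, by omega⟩
  have := hP i hi
  omega

end Pool.Agent.Y401.Dy

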